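import Pool.Agent.U775.OR.Top
import Pool.Agent.Results.MP_db9079_lc.LocallyFiniteValues

/-! # The formula for the adjacent pairs of a definable order -/

set_option autoImplicit false

namespace Pool.Agent.U775.OR

open Function
open Pool.Agent.Y924.EL
open Pool.Agent.Y924.UF
open Pool.Agent.Y410.UF
open Pool.Agent.R794.FP

def rAB (n i : ℕ) : ℕ := if i < 2 * n then 20 + i else 20 + n + i
def rAC (n i : ℕ) : ℕ := if i < n then 20 + i else 20 + n + i
def rCB (n i : ℕ) : ℕ := if i < n then 20 + 2 * n + i else if i < 2 * n then 20 + i else 20 + n + i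

theorem rAB_inj (n : ℕ) : Injective (rAB n) := by
  intro i j h; unfold rAB at h; split_ifs at h <;> omega
theorem rAC_inj (n : ℕ) : Injective (rAC n) := by
  intro i j h; unfold rAC at h; split_ifs at h <;> omega
theorem rCB_inj (n : ℕ) : Injective (rCB n) := by
  intro i j h; unfold rCB at h; split_ifs at h <;> omega

def Cl (n : ℕ) : List ℕ := (List.range n).map fun i => 20 + 2 * n + i

theorem mem_Cl (n j : ℕ) : j ∈ Cl n ↔ 20 + 2 * n ≤ j ∧ j < 20 + 3 * n := by
  simp only [Cl, List.mem_map, List.mem_range]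
  constructor
  · rintro ⟨a, ha, rfl⟩
    omega
  · rintro ⟨h1, h2⟩
    exact ⟨j - (20 + 2 * n), by omega, by omega⟩

/-- the blocks at `a` and at `b` are equal -/
def eqB (n a b : ℕ) : Fm := ands ((List.range n).map fun i => .eq (a + i) (b + i))

theorem sat_eqB {K : Type} [CommRing K] (O : Set K) (n a b : ℕ) (u : ℕ → K) :
    Sat O (eqB n a b) u ↔ ∀ i < n, u (a + i) = u (b + i) := by
  unfold eqB
  rw [sat_ands]
  simp only [List.mem_map, List.mem_range]
  constructor
  · intro h i hi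
    exact h _ ⟨i, hi, rfl⟩
  · rintro h ψ ⟨i, hi, rfl⟩
    exact h i hi

theorem sat_inF' {K : Type} [CommRing K] (O : Set K) (q m : ℕ) (u : ℕ → K) :
    Sat O (inF q m) u ↔ ∀ i < m, ∃ z, OT q (u 9) z ∧ u 11 * z = u (20 + i) := by
  unfold inF
  rw [sat_ands]
  simp only [List.mem_map, List.mem_range]
  have hh : ∀ i, (Sat O (Fm.ex 5 (.and (OTg q) (.mul 11 5 (20 + i)))) u ↔
      ∃ z, OT q (u 9) z ∧ u 11 * z = u (20 + i)) := by
    intro i
    simp only [Sat, sat_OTg]
    have h5 : 20 + i ≠ 5 := by omega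
    simp only [update_self, update_of_ne h5, update_of_ne (show (9:ℕ) ≠ 5 by norm_num),
      update_of_ne (show (11:ℕ) ≠ 5 by norm_num)]
  constructor
  · intro h i hi
    exact (hh i).1 (h _ ⟨i, hi, rfl⟩)
  · rintro h ψ ⟨i, hi, rfl⟩
    exact (hh i).2 (h i hi)

/-- the formula for the adjacent pairs -/
def adjF (q n : ℕ) (φ : Fm) : Fm :=
  .and (ren (rAB n) φ) (.and (.neg (eqB n 20 (20 + n))) (.and (inF q (2 * n))
    (.neg (exs (Cl n) (.and (inF q (3 * n)) (.and (ren (rAC n) φ) (.and (ren (rCB n) φ)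
      (.and (.neg (eqB n (20 + 2 * n) 20)) (.neg (eqB n (20 + 2 * n) (20 + n)))))))))))

variable {K : Type} [CommRing K] {n : ℕ}

/-- the assignment -/
def UU (x y : Fin n → K) (c τ : K) (v : ℕ → K) (j : ℕ) : K :=
  if h : 20 ≤ j ∧ j - 20 < n then x ⟨j - 20, h.2⟩
  else if h : 20 + n ≤ j ∧ j - (20 + n) < n then y ⟨j - (20 + n), h.2⟩
  else if j = 11 then c else if j = 9 then τ else v (j - (20 + n))

omit [CommRing K] in
theorem UU_x (x y : Fin n → K) (c τ : K) (v : ℕ → K) (i : Fin n) :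
    UU x y c τ v (20 + i) = x i := by
  have h : 20 ≤ 20 + (i : ℕ) ∧ 20 + (i : ℕ) - 20 < n := ⟨by omega, by omega⟩
  unfold UU
  rw [dif_pos h]
  congr 1
  ext
  simp

omit [CommRing K] in
theorem UU_y (x y : Fin n → K) (c τ : K) (v : ℕ → K) (i : Fin n) :
    UU x y c τ v (20 + n + i) = y i := by
  have h : ¬ (20 ≤ 20 + n + (i : ℕ) ∧ 20 + n + (i : ℕ) - 20 < n) := by omega
  have h' : 20 + n ≤ 20 + n + (i : ℕ) ∧ 20 + n + (i : ℕ) - (20 + n) < n := ⟨by omega, by omega⟩
  unfold UU
  rw [dif_neg h, dif_pos h']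
  congr 1
  ext
  simp

omit [CommRing K] in
theorem UU_v (x y : Fin n → K) (c τ : K) (v : ℕ → K) (i : ℕ) (hi : 2 * n ≤ i) :
    UU x y c τ v (20 + n + i) = v i := by
  have h : ¬ (20 ≤ 20 + n + i ∧ 20 + n + i - 20 < n) := by omega
  have h' : ¬ (20 + n ≤ 20 + n + i ∧ 20 + n + i - (20 + n) < n) ∨ n = 0 := by omega
  have h'' : ¬ (20 + n ≤ 20 + n + i ∧ 20 + n + i - (20 + n) < n) := by omega
  have h1 : 20 + n + i ≠ 11 := by omega
  have h2 : 20 + n + i ≠ 9 := by omega
  unfold UU
  rw [dif_neg h, dif_neg h'', if_neg h1, if_neg h2]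
  congr 1
  omega

omit [CommRing K] in
theorem UU_9 (x y : Fin n → K) (c τ : K) (v : ℕ → K) : UU x y c τ v 9 = τ := by
  unfold UU
  rw [dif_neg (by omega), dif_neg (by omega), if_neg (by norm_num), if_pos rfl]

omit [CommRing K] in
theorem UU_11 (x y : Fin n → K) (c τ : K) (v : ℕ → K) : UU x y c τ v 11 = c := by
  unfold UU
  rw [dif_neg (by omega), dif_neg (by omega), if_pos rfl]

omit [CommRing K] in
theorem UU_AB (x y : Fin n → K) (c τ : K) (v : ℕ → K) :
    UU x y c τ v ∘ rAB n = asg x y v := by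
  funext i
  simp only [comp_apply]
  by_cases h1 : i < n
  · have e : rAB n i = 20 + ((⟨i, h1⟩ : Fin n) : ℕ) := by
      unfold rAB; rw [if_pos (by omega)]
    rw [e, UU_x]
    simp [asg, h1]
  · by_cases h2 : i - n < n
    · have e : rAB n i = 20 + n + ((⟨i - n, h2⟩ : Fin n) : ℕ) := by
        unfold rAB; rw [if_pos (by omega)]; simp only; omega
      rw [e, UU_y]
      simp [asg, h1, h2]
    · have e : rAB n i = 20 + n + i := by
        unfold rAB; rw [if_neg (by omega)]
      rw [e, UU_v _ _ _ _ _ _ (by omega)]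
      simp [asg, h1, h2]

/-- the values of the block `C` -/
def cb (f : ℕ → K) (i : Fin n) : K := f (20 + 2 * n + i)

omit [CommRing K] in
theorem ovr_x (x y : Fin n → K) (c τ : K) (v f : ℕ → K) (i : Fin n) :
    ovr (UU x y c τ v) f (Cl n) (20 + i) = x i := by
  have h : 20 + (i : ℕ) ∉ Cl n := by rw [mem_Cl]; omega
  simp only [ovr, h, if_false, UU_x]

omit [CommRing K] in
theorem ovr_y (x y : Fin n → K) (c τ : K) (v f : ℕ → K) (i : Fin n) :
    ovr (UU x y c τ v) f (Cl n) (20 + n + i) = y i := by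
  have h : 20 + n + (i : ℕ) ∉ Cl n := by rw [mem_Cl]; omega
  simp only [ovr, h, if_false, UU_y]

omit [CommRing K] in
theorem ovr_c (x y : Fin n → K) (c τ : K) (v f : ℕ → K) (i : Fin n) :
    ovr (UU x y c τ v) f (Cl n) (20 + 2 * n + i) = cb f i := by
  have h : 20 + 2 * n + (i : ℕ) ∈ Cl n := by rw [mem_Cl]; omega
  simp only [ovr, h, if_true, cb]

omit [CommRing K] in
theorem ovr_v (x y : Fin n → K) (c τ : K) (v f : ℕ → K) (i : ℕ) (hi : 2 * n ≤ i) :
    ovr (UU x y c τ v) f (Cl n) (20 + n + i) = v i := by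
  have h : 20 + n + i ∉ Cl n := by rw [mem_Cl]; omega
  simp only [ovr, h, if_false, UU_v _ _ _ _ _ _ hi]

omit [CommRing K] in
theorem ovr_9 (x y : Fin n → K) (c τ : K) (v f : ℕ → K) :
    ovr (UU x y c τ v) f (Cl n) 9 = τ := by
  have h : 9 ∉ Cl n := by rw [mem_Cl]; omega
  simp only [ovr, h, if_false, UU_9]

omit [CommRing K] in
theorem ovr_11 (x y : Fin n → K) (c τ : K) (v f : ℕ → K) :
    ovr (UU x y c τ v) f (Cl n) 11 = c := by
  have h : 11 ∉ Cl n := by rw [mem_Cl]; omega
  simp only [ovr, h, if_false, UU_11]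

omit [CommRing K] in
theorem ovr_AC (x y : Fin n → K) (c τ : K) (v f : ℕ → K) :
    ovr (UU x y c τ v) f (Cl n) ∘ rAC n = asg x (cb f : Fin n → K) v := by
  funext i
  simp only [comp_apply]
  by_cases h1 : i < n
  · have e : rAC n i = 20 + ((⟨i, h1⟩ : Fin n) : ℕ) := by
      unfold rAC; rw [if_pos (by omega)]
    rw [e, ovr_x]
    simp [asg, h1]
  · by_cases h2 : i - n < n
    · have e : rAC n i = 20 + 2 * n + ((⟨i - n, h2⟩ : Fin n) : ℕ) := by
        unfold rAC; rw [if_neg (by omega)]; simp only; omega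
      rw [e, ovr_c]
      simp [asg, h1, h2]
    · have e : rAC n i = 20 + n + i := by
        unfold rAC; rw [if_neg (by omega)]
      rw [e, ovr_v _ _ _ _ _ _ _ (by omega)]
      simp [asg, h1, h2]

omit [CommRing K] in
theorem ovr_CB (x y : Fin n → K) (c τ : K) (v f : ℕ → K) :
    ovr (UU x y c τ v) f (Cl n) ∘ rCB n = asg (cb f : Fin n → K) y v := by
  funext i
  simp only [comp_apply]
  by_cases h1 : i < n
  · have e : rCB n i = 20 + 2 * n + ((⟨i, h1⟩ : Fin n) : ℕ) := by
      unfold rCB; rw [if_pos h1]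
    rw [e, ovr_c]
    simp [asg, h1]
  · by_cases h2 : i - n < n
    · have e : rCB n i = 20 + n + ((⟨i - n, h2⟩ : Fin n) : ℕ) := by
        unfold rCB; rw [if_neg h1, if_pos (by omega)]; simp only; omega
      rw [e, ovr_y]
      simp [asg, h1, h2]
    · have e : rCB n i = 20 + n + i := by
        unfold rCB; rw [if_neg h1, if_neg (by omega)]
      rw [e, ovr_v _ _ _ _ _ _ _ (by omega)]
      simp [asg, h1, h2]

/-- the coordinates are in `c O` -/
def InC (q : ℕ) (c τ : K) (x : Fin n → K) : Prop := ∀ i, ∃ z, OT q τ z ∧ c * z = x i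

theorem sat_adjF (O : Set K) (q : ℕ) (φ : Fm) (x y : Fin n → K) (c τ : K) (v : ℕ → K) :
    Sat O (adjF q n φ) (UU x y c τ v) ↔ RelN O φ v x y ∧ x ≠ y ∧ InC q c τ x ∧ InC q c τ y ∧
      ∀ z : Fin n → K, InC q c τ z → RelN O φ v x z → RelN O φ v z y → z = x ∨ z = y := by
  have e1 : Sat O (ren (rAB n) φ) (UU x y c τ v) ↔ RelN O φ v x y := by
    rw [sat_ren O (rAB_inj n), UU_AB]; rfl
  have e2 : Sat O (eqB n 20 (20 + n)) (UU x y c τ v) ↔ x = y := by
    rw [sat_eqB]
    constructor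
    · intro h
      funext i
      have := h i i.2
      rwa [UU_x, UU_y] at this
    · rintro rfl i hi
      exact (UU_x x x c τ v ⟨i, hi⟩).trans (UU_y x x c τ v ⟨i, hi⟩).symm
  have e3 : Sat O (inF q (2 * n)) (UU x y c τ v) ↔ InC q c τ x ∧ InC q c τ y := by
    rw [sat_inF', UU_9, UU_11]
    constructor
    · intro h
      refine ⟨fun i => ?_, fun i => ?_⟩
      · have := h i (by omega)
        rwa [UU_x] at this
      · have := h (n + i) (by omega)
        rwa [← add_assoc, UU_y] at this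
    · rintro ⟨h1, h2⟩ i hi
      by_cases h : i < n
      · have := h1 ⟨i, h⟩
        rwa [← UU_x x y c τ v ⟨i, h⟩] at this
      · have := h2 ⟨i - n, by omega⟩
        rw [← UU_y x y c τ v ⟨i - n, by omega⟩] at this
        have e : 20 + n + ((⟨i - n, by omega⟩ : Fin n) : ℕ) = 20 + i := by simp only; omega
        rwa [e] at this
  have e4 : ∀ f : ℕ → K, Sat O (inF q (3 * n)) (ovr (UU x y c τ v) f (Cl n)) ↔
      InC q c τ x ∧ InC q c τ y ∧ InC q c τ (cb f : Fin n → K) := by
    intro f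
    rw [sat_inF', ovr_9, ovr_11]
    constructor
    · intro h
      refine ⟨fun i => ?_, fun i => ?_, fun i => ?_⟩
      · have := h i (by omega)
        rwa [ovr_x] at this
      · have := h (n + i) (by omega)
        rwa [← add_assoc, ovr_y] at this
      · have := h (2 * n + i) (by omega)
        rwa [← add_assoc, ovr_c] at this
    · rintro ⟨h1, h2, h3⟩ i hi
      by_cases h : i < n
      · have := h1 ⟨i, h⟩
        rwa [← ovr_x x y c τ v f ⟨i, h⟩] at this
      · by_cases h' : i < 2 * n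
        · have := h2 ⟨i - n, by omega⟩
          rw [← ovr_y x y c τ v f ⟨i - n, by omega⟩] at this
          have e : 20 + n + ((⟨i - n, by omega⟩ : Fin n) : ℕ) = 20 + i := by simp only; omega
          rwa [e] at this
        · have := h3 ⟨i - 2 * n, by omega⟩
          rw [← ovr_c x y c τ v f ⟨i - 2 * n, by omega⟩] at this
          have e : 20 + 2 * n + ((⟨i - 2 * n, by omega⟩ : Fin n) : ℕ) = 20 + i := by
            simp only; omega
          rwa [e] at this
  have e5 : ∀ f : ℕ → K, Sat O (ren (rAC n) φ) (ovr (UU x y c τ v) f (Cl n)) ↔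
      RelN O φ v x (cb f : Fin n → K) := by
    intro f
    rw [sat_ren O (rAC_inj n), ovr_AC]; rfl
  have e6 : ∀ f : ℕ → K, Sat O (ren (rCB n) φ) (ovr (UU x y c τ v) f (Cl n)) ↔
      RelN O φ v (cb f : Fin n → K) y := by
    intro f
    rw [sat_ren O (rCB_inj n), ovr_CB]; rfl
  have e7 : ∀ f : ℕ → K, Sat O (eqB n (20 + 2 * n) 20) (ovr (UU x y c τ v) f (Cl n)) ↔
      (cb f : Fin n → K) = x := by
    intro f
    rw [sat_eqB]
    constructor
    · intro h
      funext i
      have := h i i.2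
      rwa [ovr_x, ovr_c] at this
    · intro h i hi
      have h1 := ovr_c x y c τ v f ⟨i, hi⟩
      have h2 := ovr_x x y c τ v f ⟨i, hi⟩
      rw [h] at h1
      exact h1.trans h2.symm
  have e8 : ∀ f : ℕ → K, Sat O (eqB n (20 + 2 * n) (20 + n)) (ovr (UU x y c τ v) f (Cl n)) ↔
      (cb f : Fin n → K) = y := by
    intro f
    rw [sat_eqB]
    constructor
    · intro h
      funext i
      have := h i i.2
      rwa [ovr_y, ovr_c] at this
    · intro h i hi
      have h1 := ovr_c x y c τ v f ⟨i, hi⟩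
      have h2 := ovr_y x y c τ v f ⟨i, hi⟩
      rw [h] at h1
      exact h1.trans h2.symm
  unfold adjF
  simp only [Sat, sat_exs, e1, e2, e3, e4, e5, e6, e7, e8]
  constructor
  · rintro ⟨h1, h2, ⟨h3, h4⟩, h5⟩
    refine ⟨h1, h2, h3, h4, fun z hz hxz hzy => ?_⟩
    by_contra hn
    push Not at hn
    apply h5
    have hz' : (cb (fun j => if h : j - (20 + 2 * n) < n then z ⟨j - (20 + 2 * n), h⟩ else 0) :
        Fin n → K) = z := by
      funext i
      have h : 20 + 2 * n + (i : ℕ) - (20 + 2 * n) < n := by omega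
      unfold cb
      beta_reduce
      rw [dif_pos h]
      congr 1
      ext
      simp
    refine ⟨fun j => if h : j - (20 + 2 * n) < n then z ⟨j - (20 + 2 * n), h⟩ else 0, ?_⟩
    rw [hz']
    exact ⟨⟨h3, h4, hz⟩, hxz, hzy, hn.1, hn.2⟩
  · rintro ⟨h1, h2, h3, h4, h5⟩
    refine ⟨h1, h2, ⟨h3, h4⟩, ?_⟩
    rintro ⟨f, ⟨_, _, h6⟩, h7, h8, h9, h10⟩
    rcases h5 _ h6 h7 h8 with h | h
    · exact h9 h
    · exact h10 h

def fk (n j : ℕ) : ℕ := if 20 ≤ j ∧ j < 20 + (n + n) then j - 20 else j + (n + n)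

theorem fk_inj (n : ℕ) : Injective (fk n) := by
  intro i j h; unfold fk at h; split_ifs at h <;> omega

/-- the parameters -/
def prm (n : ℕ) (c τ : K) (v : ℕ → K) (m : ℕ) : K :=
  if m - (n + n) = 11 then c else if m - (n + n) = 9 then τ else v (m - (n + n) - (20 + n))

omit [CommRing K] in
theorem asg_fk (x y : Fin n → K) (c τ : K) (v : ℕ → K) :
    (fun i => if h : i < n + n then Fin.append x y ⟨i, h⟩ else prm n c τ v i) ∘ fk n =
      UU x y c τ v := by
  funext j
  simp only [comp_apply]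
  by_cases h1 : 20 ≤ j ∧ j - 20 < n
  · have e : fk n j = j - 20 := by unfold fk; rw [if_pos (by omega)]
    rw [e, dif_pos (show j - 20 < n + n by omega)]
    have e2 : (⟨j - 20, by omega⟩ : Fin (n + n)) = Fin.castAdd n ⟨j - 20, h1.2⟩ := by
      ext; simp
    rw [e2, Fin.append_left]
    unfold UU
    rw [dif_pos h1]
  · by_cases h2 : 20 + n ≤ j ∧ j - (20 + n) < n
    · have e : fk n j = j - 20 := by unfold fk; rw [if_pos (by omega)]
      rw [e, dif_pos (show j - 20 < n + n by omega)]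
      have e2 : (⟨j - 20, by omega⟩ : Fin (n + n)) = Fin.natAdd n ⟨j - (20 + n), h2.2⟩ := by
        ext; simp; omega
      rw [e2, Fin.append_right]
      unfold UU
      rw [dif_neg h1, dif_pos h2]
    · have e : fk n j = j + (n + n) := by unfold fk; rw [if_neg (by omega)]
      rw [e, dif_neg (by omega)]
      unfold UU prm
      rw [dif_neg h1, dif_neg h2, Nat.add_sub_cancel]

theorem sat_ch (O : Set K) (q : ℕ) (φ : Fm) (x y : Fin n → K) (c τ : K) (v : ℕ → K) :
    Sat O (ren (fk n) (adjF q n φ))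
      (fun i => if h : i < n + n then Fin.append x y ⟨i, h⟩ else prm n c τ v i) ↔
      RelN O φ v x y ∧ x ≠ y ∧ InC q c τ x ∧ InC q c τ y ∧
      ∀ z : Fin n → K, InC q c τ z → RelN O φ v x z → RelN O φ v z y → z = x ∨ z = y := by
  rw [sat_ren O (fk_inj n), asg_fk, sat_adjF]

end Pool.Agent.U775.OR
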