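import Pool.Agent.U775.OR.Fml

/-! # Closed linear orders: few elements, or arithmetic -/

set_option autoImplicit false

namespace Pool.Agent.U775.OR

open Function
open Pool.Agent.Y924.EL
open Pool.Agent.Results.MP_db9079_lc.UniformFiniteness
open Pool.Agent.Results.MP_db9079_lc.LocallyFiniteValues

variable {p : ℕ} [Fact p.Prime]


theorem inC_iff {n : ℕ} (r : ℤ) (x : Fin n → LaurentSeries (ZMod p)) :
    InC (p + 1) (HahnSeries.single r (1 : ZMod p)) (HahnSeries.single (1 : ℤ) (1 : ZMod p)) x ↔
      InB r x := by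
  have hval := (Pool.Agent.Y748.UF.t_VAL Pool.Agent.Y675.UF.t_ROOT p).1
  unfold InC InB
  refine forall_congr' fun i => ?_
  have h1 := Pool.Agent.Y697.UF.ball_single (p := p) r 0 (x i)
  simp only [add_zero] at h1
  rw [show (∃ z, Pool.Agent.Y924.UF.OT (p + 1) (HahnSeries.single (1 : ℤ) (1 : ZMod p)) z ∧
    HahnSeries.single r (1 : ZMod p) * z = x i) ↔ ∃ z, z ∈ Pool.Agent.Y924.UF.OO p ∧
    HahnSeries.single r (1 : ZMod p) * z = x i from
    exists_congr fun z => by rw [hval z], h1]
  unfold Pool.Agent.Y697.UF.Ag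
  constructor
  · intro h k hk
    have := h k hk
    rw [← this]
    simp
  · intro h k hk
    rw [h k hk]
    simp

/-- every closed linear order which is defined by the formula has at most so many elements -/
def OrderTame (p : ℕ) [Fact p.Prime] (P : Set (LaurentSeries (ZMod p))) : Prop :=
  ∀ (φ : Fm) (n : ℕ), ∃ N : ℕ, ∀ v : ℕ → LaurentSeries (ZMod p),
    ClosedOrder (DRel p P φ n n v) →
      {x | DRel p P φ n n v x x}.Finite ∧ {x | DRel p P φ n n v x x}.ncard ≤ N

theorem orderTame (P : Set (LaurentSeries (ZMod p))) (hT : LFTame p P) : OrderTame p P := by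
  classical
  intro φ n
  obtain ⟨N, hN⟩ := hT (idF (n + n) (Pool.Agent.Y924.UF.ren (fk n) (adjF (p + 1) n φ)))
    (n + n) (n + n)
  refine ⟨N + 1, fun v hR => ?_⟩
  set R := DRel p P φ n n v with hRdef
  refine all_finite (N + 1) {x | R x x} fun r => ?_
  set c := (HahnSeries.single r (1 : ZMod p) : LaurentSeries (ZMod p)) with hc
  set τ := (HahnSeries.single (1 : ℤ) (1 : ZMod p) : LaurentSeries (ZMod p)) with hτ
  have hS : ∀ x y : Fin n → LaurentSeries (ZMod p),
      Fin.append x y ∈ DSet p P (Pool.Agent.Y924.UF.ren (fk n) (adjF (p + 1) n φ)) (n + n)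
        (prm n c τ v) ↔ Adj R r x y := by
    intro x y
    have h1 := sat_ch P (p + 1) φ x y c τ v
    unfold DSet
    rw [Set.mem_ofPred_eq, h1]
    simp only [hc, hτ, inC_iff]
    unfold Adj
    exact Iff.rfl
  have hid := drel_idF P (Pool.Agent.Y924.UF.ren (fk n) (adjF (p + 1) n φ)) (n + n)
    (prm n c τ v)
  obtain ⟨h1, h2⟩ := hN fun i => prm n c τ v (i - (n + n))
  have hmaps : Set.MapsTo (fun d : (Fin n → LaurentSeries (ZMod p)) ×
      (Fin n → LaurentSeries (ZMod p)) => Fin.append d.1 d.2) {d | Adj R r d.1 d.2}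
      (LFV p (DRel p P (idF (n + n) (Pool.Agent.Y924.UF.ren (fk n) (adjF (p + 1) n φ)))
        (n + n) (n + n) fun i => prm n c τ v (i - (n + n)))) := by
    rintro ⟨a, b⟩ hab
    obtain ⟨M, hM⟩ := adj_isolated hR r a b hab
    refine ⟨Fin.append a b, (hid _ _).2 ⟨(hS a b).2 hab, rfl⟩, HahnSeries.single M (1 : ZMod p),
      Pool.Agent.R794.FP.single_ne M, (Set.finite_singleton (Fin.append a b)).subset ?_⟩
    rintro y' ⟨x', h3, h4⟩
    obtain ⟨h5, rfl⟩ := (hid _ _).1 h3
    rw [near_iff, Pool.Agent.R794.FP.near_single] at h4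
    have h6 : y' = Fin.append (fun i => y' (Fin.castAdd n i)) fun i => y' (Fin.natAdd n i) :=
      (Fin.append_castAdd_natAdd (f := y')).symm
    rw [h6] at h5
    have h7 := (hS _ _).1 h5
    have h8 := hM _ _ h7 (fun i k hk => by
      have := h4 (Fin.castAdd n i) k hk
      rwa [Fin.append_left] at this) (fun i k hk => by
      have := h4 (Fin.natAdd n i) k hk
      rwa [Fin.append_right] at this)
    rw [Set.mem_singleton_iff, h6, h8.1, h8.2]
  have hinj : Set.InjOn (fun d : (Fin n → LaurentSeries (ZMod p)) ×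
      (Fin n → LaurentSeries (ZMod p)) => Fin.append d.1 d.2) {d | Adj R r d.1 d.2} := by
    rintro ⟨a, b⟩ _ ⟨a', b'⟩ _ h
    simp only at h
    refine Prod.ext (funext fun i => ?_) (funext fun i => ?_)
    · have := congrFun h (Fin.castAdd n i)
      rwa [Fin.append_left, Fin.append_left] at this
    · have := congrFun h (Fin.natAdd n i)
      rwa [Fin.append_right, Fin.append_right] at this
  have hfin : {d : (Fin n → LaurentSeries (ZMod p)) × (Fin n → LaurentSeries (ZMod p)) |
      Adj R r d.1 d.2}.Finite := Set.Finite.of_injOn hmaps hinj h1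
  have hcard := (Set.ncard_le_ncard_of_injOn _ hmaps hinj h1).trans h2
  exact count hR r N hfin hcard

/-- the expansion of the field by a closed linear order on an infinite set -/
theorem not_orderTame {n : ℕ}
    (R : (Fin n → LaurentSeries (ZMod p)) → (Fin n → LaurentSeries (ZMod p)) → Prop)
    (h : ClosedOrder R) (hinf : {x | R x x}.Infinite) : ¬ OrderTame p (Codes p R) := by
  intro hT
  obtain ⟨N, hN⟩ := hT (Pool.Agent.R794.FP.relF p (n + n)) n
  have h2 : DRel p (Codes p R) (Pool.Agent.R794.FP.relF p (n + n)) n n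
      (fun _ => HahnSeries.single (1 : ℤ) (1 : ZMod p)) = R := by
    rw [codes_eq]
    exact Pool.Agent.R794.FP.rel_cdSet R _ rfl
  have h1 := hN fun _ => HahnSeries.single (1 : ℤ) (1 : ZMod p)
  rw [h2] at h1
  exact hinf (h1 h).1

/-- the lexicographic order on `F_p((t))` -/
def Lex (x y : Fin 1 → LaurentSeries (ZMod p)) : Prop :=
  x = y ∨ ∃ k : ℤ, (∀ j < k, (x 0).coeff j = (y 0).coeff j) ∧
    ((x 0).coeff k).val < ((y 0).coeff k).val

theorem first_diff (x y : Fin 1 → LaurentSeries (ZMod p)) (h : x ≠ y) :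
    ∃ k : ℤ, (∀ j < k, (x 0).coeff j = (y 0).coeff j) ∧ (x 0).coeff k ≠ (y 0).coeff k := by
  have h0 : x 0 - y 0 ≠ 0 := by
    intro h1
    apply h
    funext i
    rw [Subsingleton.elim i 0]
    exact sub_eq_zero.1 h1
  refine ⟨(x 0 - y 0).order, fun j hj => ?_, fun h1 => ?_⟩
  · have := HahnSeries.coeff_eq_zero_of_lt_order hj
    rwa [HahnSeries.coeff_sub, sub_eq_zero] at this
  · have := HahnSeries.coeff_order_eq_zero.not.2 h0
    apply this
    rw [HahnSeries.coeff_sub, h1, sub_self]

theorem lex_closedOrder : ClosedOrder (Lex (p := p)) where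
  dom x y _ := ⟨Or.inl rfl, Or.inl rfl⟩
  total x y _ _ := by
    by_cases h : x = y
    · exact Or.inl (Or.inl h)
    · obtain ⟨k, h1, h2⟩ := first_diff x y h
      rcases lt_trichotomy ((x 0).coeff k).val ((y 0).coeff k).val with h3 | h3 | h3
      · exact Or.inl (Or.inr ⟨k, h1, h3⟩)
      · exact absurd (ZMod.val_injective p h3) h2
      · exact Or.inr (Or.inr ⟨k, fun j hj => (h1 j hj).symm, h3⟩)
  antisymm x y h1 h2 := by
    rcases h1 with h1 | ⟨k, h1, h3⟩
    · exact h1
    rcases h2 with h2 | ⟨l, h2, h4⟩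
    · exact h2.symm
    exfalso
    rcases lt_trichotomy k l with h | h | h
    · rw [h2 k h] at h3
      exact lt_irrefl _ h3
    · subst h
      exact lt_asymm h3 h4
    · rw [h1 l h] at h4
      exact lt_irrefl _ h4
  trans x y z h1 h2 := by
    rcases h1 with rfl | ⟨k, h1, h3⟩
    · exact h2
    rcases h2 with rfl | ⟨l, h2, h4⟩
    · exact Or.inr ⟨k, h1, h3⟩
    right
    rcases lt_trichotomy k l with h | h | h
    · exact ⟨k, fun j hj => (h1 j hj).trans (h2 j (hj.trans h)), by rwa [← h2 k h]⟩
    · subst h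
      exact ⟨k, fun j hj => (h1 j hj).trans (h2 j hj), h3.trans h4⟩
    · exact ⟨l, fun j hj => (h1 j (hj.trans h)).trans (h2 j hj), by rwa [h1 l h]⟩
  closed x y h := by
    have hne : x ≠ y := fun h1 => h (Or.inl h1)
    obtain ⟨k, h1, h2⟩ := first_diff x y hne
    have h3 : ((y 0).coeff k).val < ((x 0).coeff k).val := by
      rcases lt_trichotomy ((x 0).coeff k).val ((y 0).coeff k).val with h3 | h3 | h3
      · exact absurd (Or.inr ⟨k, h1, h3⟩) h
      · exact absurd (ZMod.val_injective p h3) h2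
      · exact h3
    refine ⟨k + 1, fun x' y' hx hy => ?_⟩
    have e1 : ∀ j < k, (x' 0).coeff j = (y' 0).coeff j := fun j hj => by
      rw [← hx 0 j (by omega), ← hy 0 j (by omega), h1 j hj]
    have e2 : ((y' 0).coeff k).val < ((x' 0).coeff k).val := by
      rw [← hx 0 k (by omega), ← hy 0 k (by omega)]
      exact h3
    rintro (h4 | ⟨l, h4, h5⟩)
    · rw [h4] at e2
      exact lt_irrefl _ e2
    · rcases lt_trichotomy k l with g | g | g
      · rw [h4 k g] at e2
        exact lt_irrefl _ e2
      · subst g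
        exact lt_asymm e2 h5
      · rw [e1 l g] at h5
        exact lt_irrefl _ h5

theorem lex_infinite : {x : Fin 1 → LaurentSeries (ZMod p) | Lex x x}.Infinite := by
  have h1 : {x : Fin 1 → LaurentSeries (ZMod p) | Lex x x} = Set.univ := by
    ext x
    simp [Lex]
  rw [h1]
  have hinj : Injective fun k : ℤ => (fun _ : Fin 1 =>
      (HahnSeries.single k (1 : ZMod p) : LaurentSeries (ZMod p))) := by
    intro k l hkl
    have h2 := congrFun hkl 0
    simp only at h2
    have h3 := congrArg HahnSeries.order h2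
    rwa [HahnSeries.order_single one_ne_zero, HahnSeries.order_single one_ne_zero] at h3
  haveI := Infinite.of_injective _ hinj
  exact Set.infinite_univ

end Pool.Agent.U775.OR
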