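import Pool.Agent.U775.OR.Top

/-! # Closed preorders in which sets without strictly comparable points are finite -/

set_option autoImplicit false

namespace Pool.Agent.U775.OR

variable {p : ℕ} [Fact p.Prime]

/-- `R` is a preorder on the set `{x | R x x}`, it is a closed subset of `K^n × K^n`, and every set
without strictly comparable points is finite -/
structure ThinPreorder {n : ℕ}
    (R : (Fin n → LaurentSeries (ZMod p)) → (Fin n → LaurentSeries (ZMod p)) → Prop) : Prop where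
  dom : ∀ x y, R x y → R x x ∧ R y y
  trans : ∀ x y z, R x y → R y z → R x z
  closed : ∀ x y, ¬ R x y → ∃ M : ℤ, ∀ x' y', Agree M x x' → Agree M y y' → ¬ R x' y'
  thin : ∀ A : Set (Fin n → LaurentSeries (ZMod p)), (∀ x ∈ A, R x x) →
    (∀ x ∈ A, ∀ y ∈ A, R x y → R y x) → A.Finite

variable {n : ℕ} {R : (Fin n → LaurentSeries (ZMod p)) → (Fin n → LaurentSeries (ZMod p)) → Prop}

/-- the case of a linear order -/
theorem ClosedOrder.toThin (h : ClosedOrder R) : ThinPreorder R where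
  dom := h.dom
  trans := h.trans
  closed := h.closed
  thin A hA1 hA2 := by
    refine Set.Subsingleton.finite fun x hx y hy => ?_
    rcases h.total x y (hA1 x hx) (hA1 y hy) with h1 | h1
    · exact h.antisymm _ _ h1 (hA2 x hx y hy h1)
    · exact h.antisymm _ _ (hA2 y hy x hx h1) h1

theorem exists_lower (h : ThinPreorder R) (r : ℤ)
    (A : Set (Fin n → LaurentSeries (ZMod p))) (hA : Cpt R r A)
    (C : Set (Fin n → LaurentSeries (ZMod p))) (hCA : C ⊆ A) (hne : C.Nonempty)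
    (hC : ∀ x ∈ C, ∀ y ∈ C, R x y ∨ R y x) : ∃ m ∈ A, ∀ x ∈ C, R m x := by
  have : Nonempty C := hne.to_subtype
  set f : C → Filter (Fin n → LaurentSeries (ZMod p)) := fun x =>
    Filter.principal {y | y ∈ C ∧ R y x.1} with hf
  have hd : Directed (· ≥ ·) f := by
    intro x y
    rcases hC x.1 x.2 y.1 y.2 with h1 | h1
    · refine ⟨x, le_refl _, ?_⟩
      exact Filter.principal_mono.2 fun z hz => ⟨hz.1, h.trans _ _ _ hz.2 h1⟩
    · refine ⟨y, ?_, le_refl _⟩
      exact Filter.principal_mono.2 fun z hz => ⟨hz.1, h.trans _ _ _ hz.2 h1⟩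
  have hb : ∀ x, (f x).NeBot := fun x =>
    Filter.principal_neBot_iff.2 ⟨x.1, x.2, (hA.1 _ (hCA x.2)).1⟩
  have := Filter.iInf_neBot_of_directed hd hb
  set F := Ultrafilter.of (iInf f) with hFdef
  have hmem : ∀ x : C, {y | y ∈ C ∧ R y x.1} ∈ F := by
    intro x
    have h1 : (F : Filter _) ≤ f x := (Ultrafilter.of_le _).trans (iInf_le f x)
    exact h1 (Filter.mem_principal_self _)
  have hB : {x | InB r x} ∈ F := by
    obtain ⟨x, hx⟩ := hne
    exact Filter.mem_of_superset (hmem ⟨x, hx⟩) fun y hy => (hA.1 y (hCA hy.1)).2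
  obtain ⟨a, ha⟩ := exists_lim F r hB
  refine ⟨a, hA.2 a fun M => ?_, fun x hx => ?_⟩
  · obtain ⟨x, hx⟩ := hne
    obtain ⟨y, hy1, hy2⟩ := F.nonempty_of_mem (Filter.inter_mem (hmem ⟨x, hx⟩) (ha M))
    exact ⟨y, hCA hy1.1, hy2⟩
  · by_contra hxa
    obtain ⟨M, hM⟩ := h.closed a x hxa
    obtain ⟨y, hy1, hy2⟩ := F.nonempty_of_mem (Filter.inter_mem (hmem ⟨x, hx⟩) (ha M))
    exact hM y x hy2 (Agree.refl _ _) hy1.2

theorem exists_minimal (h : ThinPreorder R) (r : ℤ)
    (A : Set (Fin n → LaurentSeries (ZMod p))) (hA : Cpt R r A) (hne : A.Nonempty) :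
    ∃ m ∈ A, ∀ x ∈ A, R x m → R m x := by
  have key := exists_maximal_of_chains_bounded (α := A) (r := fun a b => R b.1 a.1)
    (fun c hc => by
      rcases c.eq_empty_or_nonempty with rfl | hcne
      · obtain ⟨x, hx⟩ := hne
        exact ⟨⟨x, hx⟩, by simp⟩
      · obtain ⟨m, hm, hm2⟩ := exists_lower h r A hA (Subtype.val '' c)
          (by rintro _ ⟨x, _, rfl⟩; exact x.2) (hcne.image _) (by
            rintro _ ⟨x, hx, rfl⟩ _ ⟨y, hy, rfl⟩
            by_cases hxy : x = y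
            · subst hxy
              exact Or.inl (hA.1 _ x.2).1
            · exact (hc hx hy hxy).symm)
        exact ⟨⟨m, hm⟩, fun a ha => hm2 _ ⟨a, ha, rfl⟩⟩)
    (fun {a b c} h1 h2 => h.trans _ _ _ h2 h1)
  obtain ⟨m, hm⟩ := key
  exact ⟨m.1, m.2, fun x hx hxm => hm ⟨x, hx⟩ hxm⟩

/-- the closed set of the points of the order in a ball -/
theorem cpt_ball (h : ThinPreorder R) (r M : ℤ) (x : Fin n → LaurentSeries (ZMod p)) :
    Cpt R r {z | R z z ∧ InB r z ∧ Agree M x z} := by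
  refine ⟨fun z hz => ⟨hz.1, hz.2.1⟩, fun z hz => ⟨?_, ?_, ?_⟩⟩
  · by_contra hn
    obtain ⟨M', hM'⟩ := h.closed z z hn
    obtain ⟨w, hw, h1⟩ := hz M'
    exact hM' w w h1 h1 hw.1
  · refine inB_closed r z fun M' => ?_
    obtain ⟨w, hw, h1⟩ := hz M'
    exact ⟨w, hw.2.1, h1⟩
  · obtain ⟨w, hw, h1⟩ := hz M
    exact hw.2.2.trans h1.symm

/-- minimal elements within a ball -/
def MinB (R : (Fin n → LaurentSeries (ZMod p)) → (Fin n → LaurentSeries (ZMod p)) → Prop)
    (r M : ℤ) (x y : Fin n → LaurentSeries (ZMod p)) : Prop :=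
  InB r x ∧ InB r y ∧ Agree M x y ∧ R y y ∧ ∀ z, InB r z → Agree M x z → R z y → R y z

theorem separate (F : Finset (Fin n → LaurentSeries (ZMod p))) :
    ∃ M : ℤ, ∀ x ∈ F, ∀ y ∈ F, Agree M x y → x = y := by
  classical
  have h1 : ∀ x y : Fin n → LaurentSeries (ZMod p), ∃ M : ℤ, Agree M x y → x = y := by
    intro x y
    by_cases h : x = y
    · exact ⟨0, fun _ => h⟩
    · by_contra hn
      push Not at hn
      exact h (eq_of_agree fun M => (hn M).1)
  choose f hf using h1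
  refine ⟨(((F ×ˢ F).image fun d => f d.1 d.2) ∪ {0}).max' ⟨0, by simp⟩,
    fun x hx y hy hag => hf x y (hag.mono (Finset.le_max' _ _ ?_))⟩
  simp only [Finset.mem_union, Finset.mem_image, Finset.mem_product]
  exact Or.inl ⟨(x, y), ⟨hx, hy⟩, rfl⟩

/-- if there are at most `N` minimal elements of balls then there are at most `N` elements -/
theorem few (h : ThinPreorder R) (r : ℤ) (N : ℕ)
    (hN : ∀ M : ℤ, {y | ∃ x, MinB R r M x y}.Finite ∧ {y | ∃ x, MinB R r M x y}.ncard ≤ N) :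
    {x | x ∈ {x | R x x} ∧ InB r x}.Finite ∧ {x | x ∈ {x | R x x} ∧ InB r x}.ncard ≤ N := by
  classical
  have key : ∀ F : Finset (Fin n → LaurentSeries (ZMod p)),
      (F : Set _) ⊆ {x | x ∈ {x | R x x} ∧ InB r x} → F.card ≤ N := by
    intro F hF
    obtain ⟨M, hM⟩ := separate F
    have h1 : ∀ x ∈ F, ∃ y, MinB R r M x y := by
      intro x hx
      have hx' := hF hx
      obtain ⟨m, hm, hm2⟩ := exists_minimal h r _ (cpt_ball h r M x)
        ⟨x, hx'.1, hx'.2, Agree.refl _ _⟩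
      refine ⟨m, hx'.2, hm.2.1, hm.2.2, hm.1, fun z hz hxz hzm => ?_⟩
      exact hm2 z ⟨(h.dom _ _ hzm).1, hz, hxz⟩ hzm
    choose! g hg using h1
    have hinj : Set.InjOn g F := by
      intro x hx y hy hxy
      refine hM x hx y hy ?_
      have e1 := (hg x hx).2.2.1
      have e2 := (hg y hy).2.2.1
      rw [← hxy] at e2
      exact e1.trans e2.symm
    have hmaps : Set.MapsTo g F {y | ∃ x, MinB R r M x y} := fun x hx => ⟨x, hg x hx⟩
    have h2 := (Set.ncard_le_ncard_of_injOn g hmaps hinj (hN M).1).trans (hN M).2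
    rwa [Set.ncard_coe_finset] at h2
  have hfin : {x | x ∈ {x | R x x} ∧ InB r x}.Finite := by
    by_contra hinf
    obtain ⟨F, hF, hc⟩ := Set.Infinite.exists_subset_card_eq hinf (N + 1)
    have := key F hF
    omega
  refine ⟨hfin, ?_⟩
  rw [Set.ncard_eq_toFinset_card _ hfin]
  exact key _ (by simp)

/-- the minimal elements of one ball are finitely many -/
theorem minB_finite (h : ThinPreorder R) (r M : ℤ) (x : Fin n → LaurentSeries (ZMod p)) :
    {y' | ∃ x', MinB R r M x' y' ∧ Agree M x x'}.Finite := by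
  refine h.thin _ ?_ ?_
  · rintro y ⟨x', hy, _⟩
    exact hy.2.2.2.1
  · rintro y ⟨x', hy, hx'⟩ z ⟨x'', hz, hx''⟩ hyz
    refine hz.2.2.2.2 y hy.2.1 ?_ hyz
    exact (hx''.symm.trans hx').trans hy.2.2.1

end Pool.Agent.U775.OR
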