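import Pool.Agent.U775.OR.Fml
import Pool.Agent.U775.OR.Part

/-! # The formula for the minimal elements of balls in a definable order -/

set_option autoImplicit false

namespace Pool.Agent.U775.OR

open Function
open Pool.Agent.Y924.EL
open Pool.Agent.Y924.UF
open Pool.Agent.Y410.UF
open Pool.Agent.R794.FP

theorem sat_nearF' {K : Type} [CommRing K] (O : Set K) (q s n : ℕ) (u : ℕ → K) :
    Sat O (nearF q s n) u ↔ ∀ i < n, ∃ z, OT q (u 9) z ∧ u 10 * z + u (20 + i) = u (shN s i) := by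
  unfold nearF
  rw [sat_ands]
  simp only [List.mem_map, List.mem_range]
  have hh : ∀ i, (Sat O (Fm.ex 5 (.ex 6 (.and (OTg q)
      (.and (.mul 10 5 6) (.add 6 (20 + i) (shN s i)))))) u ↔
      ∃ z, OT q (u 9) z ∧ u 10 * z + u (20 + i) = u (shN s i)) := by
    intro i
    simp only [Sat, sat_OTg]
    have h5 : 20 + i ≠ 5 := by omega
    have h6 : 20 + i ≠ 6 := by omega
    have h7 : shN s i ≠ 5 := by unfold shN; omega
    have h8 : shN s i ≠ 6 := by unfold shN; omega
    simp only [update_self, update_of_ne h5, update_of_ne h6, update_of_ne h7, update_of_ne h8,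
      update_of_ne (show (9:ℕ) ≠ 5 by norm_num), update_of_ne (show (9:ℕ) ≠ 6 by norm_num),
      update_of_ne (show (10:ℕ) ≠ 5 by norm_num), update_of_ne (show (10:ℕ) ≠ 6 by norm_num),
      update_of_ne (show (5:ℕ) ≠ 6 by norm_num)]
    constructor
    · rintro ⟨z, z', hz, h1, h2⟩
      exact ⟨z, hz, by rw [h1]; exact h2⟩
    · rintro ⟨z, hz, h2⟩
      exact ⟨z, _, hz, rfl, h2⟩
  constructor
  · intro h i hi
    exact (hh i).1 (h _ ⟨i, hi, rfl⟩)
  · rintro h ψ ⟨i, hi, rfl⟩
    exact (hh i).2 (h i hi)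

def rBC (n i : ℕ) : ℕ := 20 + n + i

theorem rBC_inj (n : ℕ) : Injective (rBC n) := by
  intro i j h; unfold rBC at h; omega

/-- `x_(20+n), ...` is a minimal element of the ball of `x_20, ...` -/
def minF (q n : ℕ) (φ : Fm) : Fm :=
  .and (inF q (2 * n)) (.and (nearF q n n) (.and
    (exs (Cl n) (.and (ren (rCB n) φ) (eqB n (20 + 2 * n) (20 + n))))
    (.neg (exs (Cl n) (.and (inF q (3 * n)) (.and (nearF q (2 * n) n) (.and (ren (rCB n) φ)
      (.neg (ren (rBC n) φ)))))))))

variable {K : Type} [CommRing K] {n : ℕ}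

/-- the assignment -/
def WW (x y : Fin n → K) (b c τ : K) (v : ℕ → K) (j : ℕ) : K :=
  if h : 20 ≤ j ∧ j - 20 < n then x ⟨j - 20, h.2⟩
  else if h : 20 + n ≤ j ∧ j - (20 + n) < n then y ⟨j - (20 + n), h.2⟩
  else if j = 10 then b else if j = 11 then c else if j = 9 then τ else v (j - (20 + n))

omit [CommRing K] in
theorem WW_x (x y : Fin n → K) (b c τ : K) (v : ℕ → K) (i : Fin n) :
    WW x y b c τ v (20 + i) = x i := by
  have h : 20 ≤ 20 + (i : ℕ) ∧ 20 + (i : ℕ) - 20 < n := ⟨by omega, by omega⟩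
  unfold WW
  rw [dif_pos h]
  congr 1
  ext
  simp

omit [CommRing K] in
theorem WW_y (x y : Fin n → K) (b c τ : K) (v : ℕ → K) (i : Fin n) :
    WW x y b c τ v (20 + n + i) = y i := by
  have h : ¬ (20 ≤ 20 + n + (i : ℕ) ∧ 20 + n + (i : ℕ) - 20 < n) := by omega
  have h' : 20 + n ≤ 20 + n + (i : ℕ) ∧ 20 + n + (i : ℕ) - (20 + n) < n := ⟨by omega, by omega⟩
  unfold WW
  rw [dif_neg h, dif_pos h']
  congr 1
  ext
  simp

omit [CommRing K] in
theorem WW_v (x y : Fin n → K) (b c τ : K) (v : ℕ → K) (i : ℕ) (hi : 2 * n ≤ i) :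
    WW x y b c τ v (20 + n + i) = v i := by
  have h : ¬ (20 ≤ 20 + n + i ∧ 20 + n + i - 20 < n) := by omega
  have h'' : ¬ (20 + n ≤ 20 + n + i ∧ 20 + n + i - (20 + n) < n) := by omega
  have h0 : 20 + n + i ≠ 10 := by omega
  have h1 : 20 + n + i ≠ 11 := by omega
  have h2 : 20 + n + i ≠ 9 := by omega
  unfold WW
  rw [dif_neg h, dif_neg h'', if_neg h0, if_neg h1, if_neg h2]
  congr 1
  omega

omit [CommRing K] in
theorem WW_9 (x y : Fin n → K) (b c τ : K) (v : ℕ → K) : WW x y b c τ v 9 = τ := by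
  unfold WW
  rw [dif_neg (by omega), dif_neg (by omega), if_neg (by norm_num), if_neg (by norm_num),
    if_pos rfl]

omit [CommRing K] in
theorem WW_10 (x y : Fin n → K) (b c τ : K) (v : ℕ → K) : WW x y b c τ v 10 = b := by
  unfold WW
  rw [dif_neg (by omega), dif_neg (by omega), if_pos rfl]

omit [CommRing K] in
theorem WW_11 (x y : Fin n → K) (b c τ : K) (v : ℕ → K) : WW x y b c τ v 11 = c := by
  unfold WW
  rw [dif_neg (by omega), dif_neg (by omega), if_neg (by norm_num), if_pos rfl]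

omit [CommRing K] in
theorem ovw_x (x y : Fin n → K) (b c τ : K) (v f : ℕ → K) (i : Fin n) :
    ovr (WW x y b c τ v) f (Cl n) (20 + i) = x i := by
  have h : 20 + (i : ℕ) ∉ Cl n := by rw [mem_Cl]; omega
  simp only [ovr, h, if_false, WW_x]

omit [CommRing K] in
theorem ovw_y (x y : Fin n → K) (b c τ : K) (v f : ℕ → K) (i : Fin n) :
    ovr (WW x y b c τ v) f (Cl n) (20 + n + i) = y i := by
  have h : 20 + n + (i : ℕ) ∉ Cl n := by rw [mem_Cl]; omega
  simp only [ovr, h, if_false, WW_y]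

omit [CommRing K] in
theorem ovw_c (x y : Fin n → K) (b c τ : K) (v f : ℕ → K) (i : Fin n) :
    ovr (WW x y b c τ v) f (Cl n) (20 + 2 * n + i) = cb f i := by
  have h : 20 + 2 * n + (i : ℕ) ∈ Cl n := by rw [mem_Cl]; omega
  simp only [ovr, h, if_true, cb]

omit [CommRing K] in
theorem ovw_v (x y : Fin n → K) (b c τ : K) (v f : ℕ → K) (i : ℕ) (hi : 2 * n ≤ i) :
    ovr (WW x y b c τ v) f (Cl n) (20 + n + i) = v i := by
  have h : 20 + n + i ∉ Cl n := by rw [mem_Cl]; omega
  simp only [ovr, h, if_false, WW_v _ _ _ _ _ _ _ hi]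

omit [CommRing K] in
theorem ovw_9 (x y : Fin n → K) (b c τ : K) (v f : ℕ → K) :
    ovr (WW x y b c τ v) f (Cl n) 9 = τ := by
  have h : 9 ∉ Cl n := by rw [mem_Cl]; omega
  simp only [ovr, h, if_false, WW_9]

omit [CommRing K] in
theorem ovw_10 (x y : Fin n → K) (b c τ : K) (v f : ℕ → K) :
    ovr (WW x y b c τ v) f (Cl n) 10 = b := by
  have h : 10 ∉ Cl n := by rw [mem_Cl]; omega
  simp only [ovr, h, if_false, WW_10]

omit [CommRing K] in
theorem ovw_11 (x y : Fin n → K) (b c τ : K) (v f : ℕ → K) :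
    ovr (WW x y b c τ v) f (Cl n) 11 = c := by
  have h : 11 ∉ Cl n := by rw [mem_Cl]; omega
  simp only [ovr, h, if_false, WW_11]

omit [CommRing K] in
theorem ovw_CB (x y : Fin n → K) (b c τ : K) (v f : ℕ → K) :
    ovr (WW x y b c τ v) f (Cl n) ∘ rCB n = asg (cb f : Fin n → K) y v := by
  funext i
  simp only [comp_apply]
  by_cases h1 : i < n
  · have e : rCB n i = 20 + 2 * n + ((⟨i, h1⟩ : Fin n) : ℕ) := by
      unfold rCB; rw [if_pos h1]
    rw [e, ovw_c]
    simp [asg, h1]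
  · by_cases h2 : i - n < n
    · have e : rCB n i = 20 + n + ((⟨i - n, h2⟩ : Fin n) : ℕ) := by
        unfold rCB; rw [if_neg h1, if_pos (by omega)]; simp only; omega
      rw [e, ovw_y]
      simp [asg, h1, h2]
    · have e : rCB n i = 20 + n + i := by
        unfold rCB; rw [if_neg h1, if_neg (by omega)]
      rw [e, ovw_v _ _ _ _ _ _ _ _ (by omega)]
      simp [asg, h1, h2]

omit [CommRing K] in
theorem ovw_BC (x y : Fin n → K) (b c τ : K) (v f : ℕ → K) :
    ovr (WW x y b c τ v) f (Cl n) ∘ rBC n = asg y (cb f : Fin n → K) v := by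
  funext i
  simp only [comp_apply]
  by_cases h1 : i < n
  · have e : rBC n i = 20 + n + ((⟨i, h1⟩ : Fin n) : ℕ) := rfl
    rw [e, ovw_y]
    simp [asg, h1]
  · by_cases h2 : i - n < n
    · have e : rBC n i = 20 + 2 * n + ((⟨i - n, h2⟩ : Fin n) : ℕ) := by
        unfold rBC; simp only; omega
      rw [e, ovw_c]
      simp [asg, h1, h2]
    · have e : rBC n i = 20 + n + i := rfl
      rw [e, ovw_v _ _ _ _ _ _ _ _ (by omega)]
      simp [asg, h1, h2]

/-- nearness -/
def Nr (q : ℕ) (b τ : K) (x y : Fin n → K) : Prop := ∀ i, ∃ z, OT q τ z ∧ b * z + x i = y i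

theorem sat_minF (O : Set K) (q : ℕ) (φ : Fm) (x y : Fin n → K) (b c τ : K) (v : ℕ → K) :
    Sat O (minF q n φ) (WW x y b c τ v) ↔ InC q c τ x ∧ InC q c τ y ∧ Nr q b τ x y ∧
      RelN O φ v y y ∧ ∀ z : Fin n → K, InC q c τ z → Nr q b τ x z → RelN O φ v z y →
        RelN O φ v y z := by
  have e3 : Sat O (inF q (2 * n)) (WW x y b c τ v) ↔ InC q c τ x ∧ InC q c τ y := by
    rw [sat_inF', WW_9, WW_11]
    constructor
    · intro h
      refine ⟨fun i => ?_, fun i => ?_⟩
      · have := h i (by omega)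
        rwa [WW_x] at this
      · have := h (n + i) (by omega)
        rwa [← add_assoc, WW_y] at this
    · rintro ⟨h1, h2⟩ i hi
      by_cases h : i < n
      · have := h1 ⟨i, h⟩
        rwa [← WW_x x y b c τ v ⟨i, h⟩] at this
      · have := h2 ⟨i - n, by omega⟩
        rw [← WW_y x y b c τ v ⟨i - n, by omega⟩] at this
        have e : 20 + n + ((⟨i - n, by omega⟩ : Fin n) : ℕ) = 20 + i := by simp only; omega
        rwa [e] at this
  have e4 : ∀ f : ℕ → K, Sat O (inF q (3 * n)) (ovr (WW x y b c τ v) f (Cl n)) ↔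
      InC q c τ x ∧ InC q c τ y ∧ InC q c τ (cb f : Fin n → K) := by
    intro f
    rw [sat_inF', ovw_9, ovw_11]
    constructor
    · intro h
      refine ⟨fun i => ?_, fun i => ?_, fun i => ?_⟩
      · have := h i (by omega)
        rwa [ovw_x] at this
      · have := h (n + i) (by omega)
        rwa [← add_assoc, ovw_y] at this
      · have := h (2 * n + i) (by omega)
        rwa [← add_assoc, ovw_c] at this
    · rintro ⟨h1, h2, h3⟩ i hi
      by_cases h : i < n
      · have := h1 ⟨i, h⟩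
        rwa [← ovw_x x y b c τ v f ⟨i, h⟩] at this
      · by_cases h' : i < 2 * n
        · have := h2 ⟨i - n, by omega⟩
          rw [← ovw_y x y b c τ v f ⟨i - n, by omega⟩] at this
          have e : 20 + n + ((⟨i - n, by omega⟩ : Fin n) : ℕ) = 20 + i := by simp only; omega
          rwa [e] at this
        · have := h3 ⟨i - 2 * n, by omega⟩
          rw [← ovw_c x y b c τ v f ⟨i - 2 * n, by omega⟩] at this
          have e : 20 + 2 * n + ((⟨i - 2 * n, by omega⟩ : Fin n) : ℕ) = 20 + i := by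
            simp only; omega
          rwa [e] at this
  have e1 : Sat O (nearF q n n) (WW x y b c τ v) ↔ Nr q b τ x y := by
    rw [sat_nearF', WW_9, WW_10]
    have hs : ∀ i : ℕ, shN n i = 20 + n + i := fun i => by unfold shN; omega
    constructor
    · intro h i
      have := h i i.2
      rwa [WW_x, hs, WW_y] at this
    · intro h i hi
      have := h ⟨i, hi⟩
      rw [← WW_x x y b c τ v ⟨i, hi⟩, ← WW_y x y b c τ v ⟨i, hi⟩] at this
      rwa [hs]
  have e2 : ∀ f : ℕ → K, Sat O (nearF q (2 * n) n) (ovr (WW x y b c τ v) f (Cl n)) ↔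
      Nr q b τ x (cb f : Fin n → K) := by
    intro f
    rw [sat_nearF', ovw_9, ovw_10]
    have hs : ∀ i : ℕ, shN (2 * n) i = 20 + 2 * n + i := fun i => by unfold shN; omega
    constructor
    · intro h i
      have := h i i.2
      rwa [ovw_x, hs, ovw_c] at this
    · intro h i hi
      have := h ⟨i, hi⟩
      rw [← ovw_x x y b c τ v f ⟨i, hi⟩, ← ovw_c x y b c τ v f ⟨i, hi⟩] at this
      rwa [hs]
  have e6 : ∀ f : ℕ → K, Sat O (ren (rCB n) φ) (ovr (WW x y b c τ v) f (Cl n)) ↔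
      RelN O φ v (cb f : Fin n → K) y := by
    intro f
    rw [sat_ren O (rCB_inj n), ovw_CB]; rfl
  have e8 : ∀ f : ℕ → K, Sat O (eqB n (20 + 2 * n) (20 + n)) (ovr (WW x y b c τ v) f (Cl n)) ↔
      (cb f : Fin n → K) = y := by
    intro f
    rw [sat_eqB]
    constructor
    · intro h
      funext i
      have := h i i.2
      rwa [ovw_y, ovw_c] at this
    · intro h i hi
      have h1 := ovw_c x y b c τ v f ⟨i, hi⟩
      have h2 := ovw_y x y b c τ v f ⟨i, hi⟩
      rw [h] at h1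
      exact h1.trans h2.symm
  have e9 : ∀ f : ℕ → K, Sat O (ren (rBC n) φ) (ovr (WW x y b c τ v) f (Cl n)) ↔
      RelN O φ v y (cb f : Fin n → K) := by
    intro f
    rw [sat_ren O (rBC_inj n), ovw_BC]; rfl
  have hex : ∀ z : Fin n → K, ∃ f : ℕ → K, (cb f : Fin n → K) = z := by
    intro z
    refine ⟨fun j => if h : j - (20 + 2 * n) < n then z ⟨j - (20 + 2 * n), h⟩ else 0, ?_⟩
    funext i
    have h : 20 + 2 * n + (i : ℕ) - (20 + 2 * n) < n := by omega
    unfold cb
    beta_reduce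
    rw [dif_pos h]
    congr 1
    ext
    simp
  unfold minF
  simp only [Sat, sat_exs, e1, e2, e3, e4, e6, e8, e9]
  constructor
  · rintro ⟨⟨h3, h4⟩, h1, ⟨f, h5, h6⟩, h7⟩
    rw [h6] at h5
    refine ⟨h3, h4, h1, h5, fun z hz hxz hzy => ?_⟩
    by_contra hn
    apply h7
    obtain ⟨g, hg⟩ := hex z
    refine ⟨g, ?_⟩
    rw [hg]
    exact ⟨⟨h3, h4, hz⟩, hxz, hzy, hn⟩
  · rintro ⟨h3, h4, h1, h5, h6⟩
    obtain ⟨g, hg⟩ := hex y
    refine ⟨⟨h3, h4⟩, h1, ⟨g, by rw [hg]; exact h5, hg⟩, ?_⟩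
    rintro ⟨f, ⟨_, _, h7⟩, h8, h9, h10⟩
    exact h10 (h6 _ h7 h8 h9)

/-- the parameters -/
def prw (n : ℕ) (b c τ : K) (v : ℕ → K) (m : ℕ) : K :=
  if m - (n + n) = 10 then b else if m - (n + n) = 11 then c
  else if m - (n + n) = 9 then τ else v (m - (n + n) - (20 + n))

omit [CommRing K] in
theorem asg_fw (x y : Fin n → K) (b c τ : K) (v : ℕ → K) :
    asg x y (prw n b c τ v) ∘ fk n = WW x y b c τ v := by
  funext j
  simp only [comp_apply]
  by_cases h1 : 20 ≤ j ∧ j - 20 < n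
  · have e : fk n j = j - 20 := by unfold fk; rw [if_pos (by omega)]
    unfold asg WW
    rw [e, dif_pos h1.2, dif_pos h1]
  · by_cases h2 : 20 + n ≤ j ∧ j - (20 + n) < n
    · have e : fk n j = j - 20 := by unfold fk; rw [if_pos (by omega)]
      unfold asg WW
      rw [e, dif_neg (show ¬ j - 20 < n by omega), dif_pos (show j - 20 - n < n by omega),
        dif_neg h1, dif_pos h2]
      congr 1
      ext
      simp only
      omega
    · have e : fk n j = j + (n + n) := by unfold fk; rw [if_neg (by omega)]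
      unfold asg WW prw
      rw [e, dif_neg (by omega), dif_neg (by omega), dif_neg h1, dif_neg h2,
        Nat.add_sub_cancel]

theorem sat_mh (O : Set K) (q : ℕ) (φ : Fm) (x y : Fin n → K) (b c τ : K) (v : ℕ → K) :
    RelN O (ren (fk n) (minF q n φ)) (prw n b c τ v) x y ↔
      InC q c τ x ∧ InC q c τ y ∧ Nr q b τ x y ∧
      RelN O φ v y y ∧ ∀ z : Fin n → K, InC q c τ z → Nr q b τ x z → RelN O φ v z y →
        RelN O φ v y z := by
  unfold RelN
  rw [sat_ren O (fk_inj n), asg_fw, sat_minF]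
  exact Iff.rfl

end Pool.Agent.U775.OR
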