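import Pool.Agent.U775.OR.PFml
import Pool.Agent.U775.OR.Main

/-! # Closed partial orders without infinite antichains: few elements, or arithmetic -/

set_option autoImplicit false

namespace Pool.Agent.U775.OR

open Function
open Pool.Agent.Y924.EL
open Pool.Agent.Results.MP_db9079_lc.UniformFiniteness
open Pool.Agent.Results.MP_db9079_lc.LocallyFiniteValues

variable {p : ℕ} [Fact p.Prime]

theorem nr_iff {n : ℕ} (M : ℤ) (x y : Fin n → LaurentSeries (ZMod p)) :
    Nr (p + 1) (HahnSeries.single M (1 : ZMod p)) (HahnSeries.single (1 : ℤ) (1 : ZMod p)) x y ↔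
      Agree M x y := by
  have hval := (Pool.Agent.Y748.UF.t_VAL Pool.Agent.Y675.UF.t_ROOT p).1
  unfold Nr Agree
  refine forall_congr' fun i => ?_
  have h1 := Pool.Agent.Y697.UF.ball_single (p := p) M (x i) (y i)
  rw [show (∃ z, Pool.Agent.Y924.UF.OT (p + 1) (HahnSeries.single (1 : ℤ) (1 : ZMod p)) z ∧
    HahnSeries.single M (1 : ZMod p) * z + x i = y i) ↔ ∃ z, z ∈ Pool.Agent.Y924.UF.OO p ∧
    HahnSeries.single M (1 : ZMod p) * z + x i = y i from
    exists_congr fun z => by rw [hval z], h1]
  exact Iff.rfl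

/-- for each formula there is a number which bounds the numbers of elements of all thin closed
preorders which are defined by the formula with parameters -/
def OrdersBounded (p : ℕ) [Fact p.Prime] (P : Set (LaurentSeries (ZMod p))) : Prop :=
  ∀ (φ : Fm) (n : ℕ), ∃ N : ℕ, ∀ v : ℕ → LaurentSeries (ZMod p),
    ThinPreorder (DRel p P φ n n v) →
      {x | DRel p P φ n n v x x}.Finite ∧ {x | DRel p P φ n n v x x}.ncard ≤ N

theorem ordersBounded (P : Set (LaurentSeries (ZMod p))) (hT : LFTame p P) :
    OrdersBounded p P := by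
  classical
  intro φ n
  obtain ⟨N, hN⟩ := hT (Pool.Agent.Y924.UF.ren (fk n) (minF (p + 1) n φ)) n n
  refine ⟨N, fun v hR => ?_⟩
  set R := DRel p P φ n n v with hRdef
  refine all_finite N {x | R x x} fun r => few hR r N fun M => ?_
  set b := (HahnSeries.single M (1 : ZMod p) : LaurentSeries (ZMod p)) with hb
  set c := (HahnSeries.single r (1 : ZMod p) : LaurentSeries (ZMod p)) with hc
  set τ := (HahnSeries.single (1 : ℤ) (1 : ZMod p) : LaurentSeries (ZMod p)) with hτ
  have hS : ∀ x y : Fin n → LaurentSeries (ZMod p),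
      DRel p P (Pool.Agent.Y924.UF.ren (fk n) (minF (p + 1) n φ)) n n (prw n b c τ v) x y ↔
        MinB R r M x y := by
    intro x y
    have h1 := sat_mh P (p + 1) φ x y b c τ v
    refine h1.trans ?_
    simp only [hb, hc, hτ, inC_iff, nr_iff]
    unfold MinB
    exact Iff.rfl
  obtain ⟨h1, h2⟩ := hN (prw n b c τ v)
  have hsub : {y | ∃ x, MinB R r M x y} ⊆ LFV p (DRel p P
      (Pool.Agent.Y924.UF.ren (fk n) (minF (p + 1) n φ)) n n (prw n b c τ v)) := by
    rintro y ⟨x, hxy⟩
    refine ⟨x, (hS x y).2 hxy, b, Pool.Agent.R794.FP.single_ne M,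
      (minB_finite hR r M x).subset ?_⟩
    rintro y' ⟨x', h3, h4⟩
    rw [near_iff, Pool.Agent.R794.FP.near_single] at h4
    exact ⟨x', (hS x' y').1 h3, fun i k hk => h4 i k hk⟩
  exact ⟨h1.subset hsub, (Set.ncard_le_ncard hsub h1).trans h2⟩

/-- the expansion of the field by a closed partial order without infinite antichains on an
infinite set -/
theorem not_ordersBounded {n : ℕ}
    (R : (Fin n → LaurentSeries (ZMod p)) → (Fin n → LaurentSeries (ZMod p)) → Prop)
    (h : ThinPreorder R) (hinf : {x | R x x}.Infinite) : ¬ OrdersBounded p (Codes p R) := by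
  intro hT
  obtain ⟨N, hN⟩ := hT (Pool.Agent.R794.FP.relF p (n + n)) n
  have h2 : DRel p (Codes p R) (Pool.Agent.R794.FP.relF p (n + n)) n n
      (fun _ => HahnSeries.single (1 : ℤ) (1 : ZMod p)) = R := by
    rw [codes_eq]
    exact Pool.Agent.R794.FP.rel_cdSet R _ rfl
  have h1 := hN fun _ => HahnSeries.single (1 : ℤ) (1 : ZMod p)
  rw [h2] at h1
  exact hinf (h1 h).1

end Pool.Agent.U775.OR
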