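import Mathlib

/-! # Closed linear orders on sets of tuples of Laurent series: maxima, jumps, counting -/

set_option autoImplicit false

namespace Pool.Agent.U775.OR

variable {p : ℕ} [Fact p.Prime]

/-- the coordinates of `x` and `x'` have the same coefficients below `M` -/
def Agree {n : ℕ} (M : ℤ) (x x' : Fin n → LaurentSeries (ZMod p)) : Prop :=
  ∀ i, ∀ k < M, (x i).coeff k = (x' i).coeff k

/-- the coefficients of the coordinates of `x` below `r` are `0` -/
def InB {n : ℕ} (r : ℤ) (x : Fin n → LaurentSeries (ZMod p)) : Prop :=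
  ∀ i, ∀ k < r, (x i).coeff k = 0

theorem Agree.symm {n : ℕ} {M : ℤ} {x y : Fin n → LaurentSeries (ZMod p)} (h : Agree M x y) :
    Agree M y x := fun i k hk => (h i k hk).symm

theorem Agree.trans {n : ℕ} {M : ℤ} {x y z : Fin n → LaurentSeries (ZMod p)} (h : Agree M x y)
    (h' : Agree M y z) : Agree M x z := fun i k hk => (h i k hk).trans (h' i k hk)

theorem Agree.refl {n : ℕ} (M : ℤ) (x : Fin n → LaurentSeries (ZMod p)) : Agree M x x :=
  fun _ _ _ => Eq.refl _

theorem Agree.mono {n : ℕ} {M M' : ℤ} {x y : Fin n → LaurentSeries (ZMod p)} (h : Agree M x y)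
    (hM : M' ≤ M) : Agree M' x y := fun i k hk => h i k (lt_of_lt_of_le hk hM)

theorem eq_of_agree {n : ℕ} {x y : Fin n → LaurentSeries (ZMod p)} (h : ∀ M, Agree M x y) :
    x = y := by
  funext i
  ext k
  exact h (k + 1) i k (lt_add_one k)

theorem exists_lim {n : ℕ} (F : Ultrafilter (Fin n → LaurentSeries (ZMod p))) (r : ℤ)
    (hF : {x | InB r x} ∈ F) :
    ∃ a : Fin n → LaurentSeries (ZMod p), ∀ M : ℤ, {x | Agree M a x} ∈ F := by
  classical
  have h1 : ∀ (i : Fin n) (k : ℤ), ∃ c : ZMod p, {x : Fin n → LaurentSeries (ZMod p) |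
      (x i).coeff k = c} ∈ F := by
    intro i k
    obtain ⟨c, hc⟩ := Ultrafilter.eq_pure_of_finite
      (F.map fun x : Fin n → LaurentSeries (ZMod p) => (x i).coeff k)
    refine ⟨c, ?_⟩
    have h2 : ({c} : Set (ZMod p)) ∈
        (F.map fun x : Fin n → LaurentSeries (ZMod p) => (x i).coeff k) := by
      rw [hc]
      exact Filter.mem_pure.2 rfl
    exact h2
  choose c hc using h1
  have h0 : ∀ (i : Fin n) (k : ℤ), k < r → c i k = 0 := by
    intro i k hk
    obtain ⟨x, hx1, hx2⟩ := F.nonempty_of_mem (Filter.inter_mem (hc i k) hF)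
    rw [← (show (x i).coeff k = c i k from hx1)]
    exact hx2 i k hk
  have hb : ∀ i : Fin n, BddBelow (Function.support (c i)) := by
    intro i
    refine ⟨r, fun k hk => ?_⟩
    by_contra hlt
    exact hk (h0 i k (not_le.1 hlt))
  refine ⟨fun i => HahnSeries.ofSuppBddBelow (c i) (hb i), fun M => ?_⟩
  have h3 : ∀ i : Fin n, {x : Fin n → LaurentSeries (ZMod p) | ∀ k ∈ Finset.Ico r M,
      (x i).coeff k = c i k} ∈ F := by
    intro i
    have : (⋂ k ∈ Finset.Ico r M, {x : Fin n → LaurentSeries (ZMod p) |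
        (x i).coeff k = c i k}) ∈ F :=
      (Filter.biInter_finset_mem (Finset.Ico r M)).2 fun k _ => hc i k
    refine Filter.mem_of_superset this fun x hx k hk => ?_
    simp only [Set.mem_iInter] at hx
    exact hx k hk
  have h4 : (⋂ i : Fin n, {x : Fin n → LaurentSeries (ZMod p) | ∀ k ∈ Finset.Ico r M,
      (x i).coeff k = c i k}) ∈ F := Filter.iInter_mem.2 h3
  refine Filter.mem_of_superset (Filter.inter_mem h4 hF) ?_
  rintro x ⟨hx1, hx2⟩ i k hk
  simp only [Set.mem_iInter] at hx1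
  show c i k = (x i).coeff k
  by_cases h : k < r
  · rw [h0 i k h]
    exact (hx2 i k h).symm
  · exact (hx1 i k (Finset.mem_Ico.2 ⟨not_lt.1 h, hk⟩)).symm

/-- `R` is a linear order on the set `{x | R x x}` and a closed subset of `K^n × K^n` -/
structure ClosedOrder {n : ℕ}
    (R : (Fin n → LaurentSeries (ZMod p)) → (Fin n → LaurentSeries (ZMod p)) → Prop) : Prop where
  dom : ∀ x y, R x y → R x x ∧ R y y
  total : ∀ x y, R x x → R y y → R x y ∨ R y x
  antisymm : ∀ x y, R x y → R y x → x = y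
  trans : ∀ x y z, R x y → R y z → R x z
  closed : ∀ x y, ¬ R x y → ∃ M : ℤ, ∀ x' y', Agree M x x' → Agree M y y' → ¬ R x' y'

variable {n : ℕ} {R : (Fin n → LaurentSeries (ZMod p)) → (Fin n → LaurentSeries (ZMod p)) → Prop}

theorem ClosedOrder.flip (h : ClosedOrder R) : ClosedOrder fun x y => R y x where
  dom x y hxy := (h.dom y x hxy).symm
  total x y hx hy := (h.total x y hx hy).symm
  antisymm x y h1 h2 := h.antisymm x y h2 h1
  trans x y z h1 h2 := h.trans z y x h2 h1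
  closed x y hxy := by
    obtain ⟨M, hM⟩ := h.closed y x hxy
    exact ⟨M, fun x' y' hx hy => hM y' x' hy hx⟩

/-- `A` is a closed subset of `{x | R x x}` with bounded coordinates -/
def Cpt (R : (Fin n → LaurentSeries (ZMod p)) → (Fin n → LaurentSeries (ZMod p)) → Prop)
    (r : ℤ) (A : Set (Fin n → LaurentSeries (ZMod p))) : Prop :=
  (∀ x ∈ A, R x x ∧ InB r x) ∧ ∀ x, (∀ M, ∃ y ∈ A, Agree M x y) → x ∈ A

theorem exists_max (h : ClosedOrder R) (r : ℤ) (A : Set (Fin n → LaurentSeries (ZMod p)))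
    (hA : Cpt R r A) (hne : A.Nonempty) : ∃ m ∈ A, ∀ x ∈ A, R x m := by
  haveI : Nonempty A := hne.to_subtype
  set f : A → Filter (Fin n → LaurentSeries (ZMod p)) := fun x =>
    Filter.principal {y | y ∈ A ∧ R x.1 y} with hf
  have hd : Directed (· ≥ ·) f := by
    intro x y
    rcases h.total x.1 y.1 (hA.1 _ x.2).1 (hA.1 _ y.2).1 with h1 | h1
    · refine ⟨y, ?_, le_refl _⟩
      exact Filter.principal_mono.2 fun z hz => ⟨hz.1, h.trans _ _ _ h1 hz.2⟩
    · refine ⟨x, le_refl _, ?_⟩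
      exact Filter.principal_mono.2 fun z hz => ⟨hz.1, h.trans _ _ _ h1 hz.2⟩
  have hb : ∀ x, (f x).NeBot := fun x =>
    Filter.principal_neBot_iff.2 ⟨x.1, x.2, (hA.1 _ x.2).1⟩
  haveI := Filter.iInf_neBot_of_directed hd hb
  set F := Ultrafilter.of (iInf f) with hFdef
  have hmem : ∀ x : A, {y | y ∈ A ∧ R x.1 y} ∈ F := by
    intro x
    have h1 : (F : Filter _) ≤ f x := (Ultrafilter.of_le _).trans (iInf_le f x)
    exact h1 (Filter.mem_principal_self _)
  have hB : {x | InB r x} ∈ F := by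
    obtain ⟨x, hx⟩ := hne
    exact Filter.mem_of_superset (hmem ⟨x, hx⟩) fun y hy => (hA.1 y hy.1).2
  obtain ⟨a, ha⟩ := exists_lim F r hB
  refine ⟨a, hA.2 a fun M => ?_, fun x hx => ?_⟩
  · obtain ⟨x, hx⟩ := hne
    obtain ⟨y, hy1, hy2⟩ := F.nonempty_of_mem (Filter.inter_mem (hmem ⟨x, hx⟩) (ha M))
    exact ⟨y, hy1.1, hy2⟩
  · by_contra hxa
    obtain ⟨M, hM⟩ := h.closed x a hxa
    obtain ⟨y, hy1, hy2⟩ := F.nonempty_of_mem (Filter.inter_mem (hmem ⟨x, hx⟩) (ha M))
    exact hM x y (Agree.refl _ _) hy2 hy1.2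

theorem exists_min (h : ClosedOrder R) (r : ℤ) (A : Set (Fin n → LaurentSeries (ZMod p)))
    (hA : Cpt R r A) (hne : A.Nonempty) : ∃ m ∈ A, ∀ x ∈ A, R m x :=
  exists_max h.flip r A hA hne

/-- `a` and `b` are adjacent in the part of the order within the ball -/
def Adj (R : (Fin n → LaurentSeries (ZMod p)) → (Fin n → LaurentSeries (ZMod p)) → Prop)
    (r : ℤ) (a b : Fin n → LaurentSeries (ZMod p)) : Prop :=
  R a b ∧ a ≠ b ∧ InB r a ∧ InB r b ∧ ∀ z, InB r z → R a z → R z b → z = a ∨ z = b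

theorem inB_closed (r : ℤ) (x : Fin n → LaurentSeries (ZMod p))
    (h : ∀ M, ∃ y, InB r y ∧ Agree M x y) : InB r x := by
  intro i k hk
  obtain ⟨y, hy, h1⟩ := h r
  rw [h1 i k hk]
  exact hy i k hk

theorem cl_right (h : ClosedOrder R) (a x : Fin n → LaurentSeries (ZMod p))
    (hx : ∀ M, ∃ y, R a y ∧ Agree M x y) : R a x := by
  by_contra hn
  obtain ⟨M, hM⟩ := h.closed a x hn
  obtain ⟨y, hy, h1⟩ := hx M
  exact hM a y (Agree.refl _ _) h1 hy

theorem jump (h : ClosedOrder R) (r : ℤ) (y x : Fin n → LaurentSeries (ZMod p))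
    (hyx : R y x) (hne : y ≠ x) (hy : InB r y) (hx : InB r x) :
    ∃ a b, Adj R r a b ∧ R y a ∧ R b x := by
  have h0 : ∃ M, ¬ Agree M x y := by
    by_contra hn
    push Not at hn
    exact hne (eq_of_agree hn).symm
  obtain ⟨M, hM⟩ := h0
  obtain ⟨a, ha, hmax⟩ := exists_max h r {z | InB r z ∧ R y z ∧ R z x ∧ ¬ Agree M x z}
    ⟨fun z hz => ⟨(h.dom _ _ hz.2.1).2, hz.1⟩, fun z hz => by
      refine ⟨inB_closed r z fun M' => ?_, cl_right h y z fun M' => ?_,
        cl_right h.flip x z fun M' => ?_, fun hag => ?_⟩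
      · obtain ⟨w, hw, h1⟩ := hz M'
        exact ⟨w, hw.1, h1⟩
      · obtain ⟨w, hw, h1⟩ := hz M'
        exact ⟨w, hw.2.1, h1⟩
      · obtain ⟨w, hw, h1⟩ := hz M'
        exact ⟨w, hw.2.2.1, h1⟩
      · obtain ⟨w, hw, h1⟩ := hz M
        exact hw.2.2.2 (hag.trans h1)⟩ ⟨y, hy, (h.dom _ _ hyx).1, hyx, hM⟩
  obtain ⟨b, hb, hmin⟩ := exists_min h r {z | InB r z ∧ R a z ∧ R z x ∧ Agree M x z}
    ⟨fun z hz => ⟨(h.dom _ _ hz.2.1).2, hz.1⟩, fun z hz => by
      refine ⟨inB_closed r z fun M' => ?_, cl_right h a z fun M' => ?_,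
        cl_right h.flip x z fun M' => ?_, ?_⟩
      · obtain ⟨w, hw, h1⟩ := hz M'
        exact ⟨w, hw.1, h1⟩
      · obtain ⟨w, hw, h1⟩ := hz M'
        exact ⟨w, hw.2.1, h1⟩
      · obtain ⟨w, hw, h1⟩ := hz M'
        exact ⟨w, hw.2.2.1, h1⟩
      · obtain ⟨w, hw, h1⟩ := hz M
        exact hw.2.2.2.trans h1.symm⟩ ⟨x, hx, ha.2.2.1, (h.dom _ _ hyx).2, Agree.refl _ _⟩
  refine ⟨a, b, ⟨hb.2.1, ?_, ha.1, hb.1, fun z hz haz hzb => ?_⟩, ha.2.1, hb.2.2.1⟩
  · rintro rfl
    exact ha.2.2.2 hb.2.2.2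
  · by_cases hag : Agree M x z
    · right
      exact h.antisymm _ _ hzb (hmin z ⟨hz, haz, h.trans _ _ _ hzb hb.2.2.1, hag⟩)
    · left
      exact h.antisymm _ _ (hmax z ⟨hz, h.trans _ _ _ ha.2.1 haz,
        h.trans _ _ _ hzb hb.2.2.1, hag⟩) haz

/-- an adjacent pair has a neighbourhood without other adjacent pairs -/
theorem adj_isolated (h : ClosedOrder R) (r : ℤ) (a b : Fin n → LaurentSeries (ZMod p))
    (hab : Adj R r a b) : ∃ M : ℤ, ∀ a' b', Adj R r a' b' → Agree M a a' → Agree M b b' →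
      a' = a ∧ b' = b := by
  have hba : ¬ R b a := fun h1 => hab.2.1 (h.antisymm _ _ hab.1 h1)
  obtain ⟨M, hM⟩ := h.closed b a hba
  refine ⟨M, fun a' b' hab' ha hb => ?_⟩
  have e1 : ¬ R b a' := hM b a' (Agree.refl _ _) ha
  have e2 : ¬ R b' a := hM b' a hb (Agree.refl _ _)
  have d1 := h.dom _ _ hab.1
  have d2 := h.dom _ _ hab'.1
  have f1 : R a' b := (h.total a' b d2.1 d1.2).resolve_right e1
  have f2 : R a b' := (h.total a b' d1.1 d2.2).resolve_right e2
  have na : a' ≠ b := fun h1 => e1 (h1 ▸ d1.2)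
  have nb : b' ≠ a := fun h1 => e2 (h1 ▸ d1.1)
  have ha' : a' = a := by
    rcases h.total a' a d2.1 d1.1 with g | g
    · rcases hab'.2.2.2.2 a hab.2.2.1 g f2 with g1 | g1
      · exact g1.symm
      · exact absurd g1.symm nb
    · rcases hab.2.2.2.2 a' hab'.2.2.1 g f1 with g1 | g1
      · exact g1
      · exact absurd g1 na
  refine ⟨ha', ?_⟩
  rcases h.total b' b d2.2 d1.2 with g | g
  · rcases hab.2.2.2.2 b' hab'.2.2.2.1 f2 g with g1 | g1
    · exact absurd g1 nb
    · exact g1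
  · rcases hab'.2.2.2.2 b hab.2.2.2.1 f1 g with g1 | g1
    · exact absurd g1.symm na
    · exact g1.symm

/-- a set with at most `N` jumps has at most `N + 1` elements -/
theorem count (h : ClosedOrder R) (r : ℤ) (N : ℕ)
    (hfin : {d : (Fin n → LaurentSeries (ZMod p)) × (Fin n → LaurentSeries (ZMod p)) |
      Adj R r d.1 d.2}.Finite)
    (hN : {d : (Fin n → LaurentSeries (ZMod p)) × (Fin n → LaurentSeries (ZMod p)) |
      Adj R r d.1 d.2}.ncard ≤ N) :
    {x | R x x ∧ InB r x}.Finite ∧ {x | R x x ∧ InB r x}.ncard ≤ N + 1 := by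
  classical
  set D := {d : (Fin n → LaurentSeries (ZMod p)) × (Fin n → LaurentSeries (ZMod p)) |
      Adj R r d.1 d.2} with hD
  set g : (Fin n → LaurentSeries (ZMod p)) → ℕ := fun x => {d | d ∈ D ∧ R d.2 x}.ncard with hg
  have hsub : ∀ x, {d | d ∈ D ∧ R d.2 x} ⊆ D := fun x d hd => hd.1
  have hgN : ∀ x, g x ≤ N := fun x => (Set.ncard_le_ncard (hsub x) hfin).trans hN
  have hlt : ∀ y x, R y x → y ≠ x → InB r y → InB r x → g y < g x := by
    intro y x hyx hne hy hx
    obtain ⟨a, b, hab, h1, h2⟩ := jump h r y x hyx hne hy hx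
    refine Set.ncard_lt_ncard ?_ (hfin.subset (hsub x))
    refine ⟨fun d hd => ⟨hd.1, h.trans _ _ _ hd.2 hyx⟩, fun hs => ?_⟩
    have h3 : R b y := (hs (⟨hab, h2⟩ : ((a, b) : _ × _) ∈ {d | d ∈ D ∧ R d.2 x})).2
    have h4 : R b a := h.trans _ _ _ h3 h1
    exact hab.2.1 (h.antisymm _ _ hab.1 h4)
  have hinj : Set.InjOn g {x | R x x ∧ InB r x} := by
    intro x hx y hy hxy
    by_contra hne
    rcases h.total x y hx.1 hy.1 with h1 | h1
    · exact absurd hxy (hlt x y h1 hne hx.2 hy.2).ne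
    · exact absurd hxy (hlt y x h1 (Ne.symm hne) hy.2 hx.2).ne'
  have hmaps : Set.MapsTo g {x | R x x ∧ InB r x} (Finset.range (N + 1) : Set ℕ) := by
    intro x _
    simp only [Finset.coe_range, Set.mem_Iio]
    exact Nat.lt_succ_of_le (hgN x)
  refine ⟨Set.Finite.of_injOn hmaps hinj (Finset.finite_toSet _), ?_⟩
  refine (Set.ncard_le_ncard_of_injOn g hmaps hinj (Finset.finite_toSet _)).trans ?_
  rw [Set.ncard_coe_finset, Finset.card_range]

/-- every tuple is in a ball -/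
theorem exists_inB (x : Fin n → LaurentSeries (ZMod p)) : ∃ r : ℤ, InB r x := by
  classical
  have h1 : ∀ i, ∃ r : ℤ, ∀ k < r, (x i).coeff k = 0 := fun i =>
    ⟨(x i).order, fun k hk => HahnSeries.coeff_eq_zero_of_lt_order hk⟩
  choose f hf using h1
  refine ⟨(Finset.univ.image f ∪ {0}).min' ⟨0, by simp⟩, fun i k hk => hf i k ?_⟩
  exact lt_of_lt_of_le hk (Finset.min'_le _ _ (by simp))

theorem InB.mono {r s : ℤ} {x : Fin n → LaurentSeries (ZMod p)} (h : InB r x) (hs : s ≤ r) :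
    InB s x := fun i k hk => h i k (lt_of_lt_of_le hk hs)

theorem all_finite (N : ℕ) (X : Set (Fin n → LaurentSeries (ZMod p)))
    (hX : ∀ r : ℤ, {x | x ∈ X ∧ InB r x}.Finite ∧ {x | x ∈ X ∧ InB r x}.ncard ≤ N) :
    X.Finite ∧ X.ncard ≤ N := by
  classical
  have key : ∀ F : Finset (Fin n → LaurentSeries (ZMod p)), (F : Set _) ⊆ X → F.card ≤ N := by
    intro F hF
    choose f hf using exists_inB (n := n) (p := p)
    set r := (F.image f ∪ {0}).min' ⟨0, by simp⟩ with hr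
    have h1 : (F : Set _) ⊆ {x | x ∈ X ∧ InB r x} := by
      intro x hx
      refine ⟨hF hx, (hf x).mono ?_⟩
      refine Finset.min'_le _ _ ?_
      simp only [Finset.mem_union, Finset.mem_image]
      exact Or.inl ⟨x, hx, rfl⟩
    rw [← Set.ncard_coe_finset]
    exact (Set.ncard_le_ncard h1 (hX r).1).trans (hX r).2
  have hfin : X.Finite := by
    by_contra hinf
    obtain ⟨F, hF, hc⟩ := Set.Infinite.exists_subset_card_eq hinf (N + 1)
    have := key F hF
    omega
  refine ⟨hfin, ?_⟩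
  rw [Set.ncard_eq_toFinset_card _ hfin]
  exact key _ (by simp)

end Pool.Agent.U775.OR
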